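import Mathlib
import Pool.Agent.Y261.VG.Main
import Pool.Agent.Y261.VG.Space
import Pool.Agent.Y288.VG.Proj

set_option autoImplicit false

open scoped Manifold ContDiff

/-!
# Not every complex manifold is very good

The complex manifold is the connected open subset
`X = (P¹ × ℂ²) \ ({|x| ≤ 1} × {(t, y) : Re t ≤ 0, |y| ≤ |t|})` of `P¹ × ℂ²`.
No holomorphic affine bundle over it has a holomorphically convex total space.
-/

namespace Pool.Agent.Results.MP_77a596_an.NotVeryGood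

/-- A complex manifold (Hausdorff, second countable, finite-dimensional): `V` is the
finite-dimensional complex vector space on which the manifold `X` is modelled, and coordinate
changes are complex analytic. -/
structure CMfd where
  /-- the model vector space -/
  V : Type
  [nV : NormedAddCommGroup V]
  [sV : NormedSpace ℂ V]
  [fV : FiniteDimensional ℂ V]
  /-- the underlying space -/
  X : Type
  [tX : TopologicalSpace X]
  [cX : ChartedSpace V X]
  [mX : IsManifold 𝓘(ℂ, V) ω X]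
  [hX : T2Space X]
  [scX : SecondCountableTopology X]

attribute [instance] CMfd.nV CMfd.sV CMfd.fV CMfd.tX CMfd.cX CMfd.mX CMfd.hX CMfd.scX

/-- `π : E → X` is a holomorphic affine bundle with fibre `ℂ^k`: there is an atlas of local
trivializations of `π` with fibre `ℂ^k`, whose base sets cover `X`, which are biholomorphic, and
whose coordinate changes on the fibres are complex affine automorphisms of `ℂ^k`. -/
def IsAffineBundle (E X : CMfd) (k : ℕ) (π : E.X → X.X) : Prop :=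
  ∃ 𝒜 : Set (Bundle.Trivialization (Fin k → ℂ) π),
    (∀ x : X.X, ∃ e ∈ 𝒜, x ∈ e.baseSet) ∧
    (∀ e ∈ 𝒜,
      MDifferentiableOn 𝓘(ℂ, E.V) (𝓘(ℂ, X.V).prod 𝓘(ℂ, Fin k → ℂ)) e e.source ∧
      MDifferentiableOn (𝓘(ℂ, X.V).prod 𝓘(ℂ, Fin k → ℂ)) 𝓘(ℂ, E.V)
        e.toOpenPartialHomeomorph.symm e.target) ∧
    (∀ e ∈ 𝒜, ∀ e' ∈ 𝒜, ∀ x ∈ e.baseSet ∩ e'.baseSet,
      ∃ T : (Fin k → ℂ) ≃ᵃ[ℂ] (Fin k → ℂ),
        ∀ v, (e' (e.toOpenPartialHomeomorph.symm (x, v))).2 = T v)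

/-- The hull of a set with respect to the holomorphic functions on the manifold. -/
def holHull (E : CMfd) (K : Set E.X) : Set E.X :=
  {p | ∀ f : E.X → ℂ, MDifferentiable 𝓘(ℂ, E.V) 𝓘(ℂ, ℂ) f →
    ∀ C : ℝ, (∀ z ∈ K, ‖f z‖ ≤ C) → ‖f p‖ ≤ C}

/-- Holomorphic convexity. -/
def HolConvex (E : CMfd) : Prop := ∀ K : Set E.X, IsCompact K → IsCompact (holHull E K)

/-- Stein manifolds: holomorphically convex, global holomorphic functions separate points and
give local coordinates. -/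
def IsStein (E : CMfd) : Prop :=
  HolConvex E ∧
  (∀ p q : E.X, p ≠ q → ∃ f : E.X → ℂ, MDifferentiable 𝓘(ℂ, E.V) 𝓘(ℂ, ℂ) f ∧ f p ≠ f q) ∧
  (∀ p : E.X, ∃ f : E.X → E.V, MDifferentiable 𝓘(ℂ, E.V) 𝓘(ℂ, E.V) f ∧
    Function.Bijective (mfderiv 𝓘(ℂ, E.V) 𝓘(ℂ, E.V) f p))

/-- A complex manifold is very good if some holomorphic affine bundle over it has Stein total
space. -/
def VeryGood (X : CMfd) : Prop :=
  ∃ (E : CMfd) (k : ℕ) (π : E.X → X.X), IsAffineBundle E X k π ∧ IsStein E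

/-- There is a connected complex manifold of dimension three which is not very good; moreover no
holomorphic affine bundle over it has a holomorphically convex total space. -/
theorem result :
    ∃ X : CMfd, ConnectedSpace X.X ∧ Module.finrank ℂ X.V = 3 ∧ ¬ VeryGood X ∧
      ∀ (E : CMfd) (k : ℕ) (π : E.X → X.X), IsAffineBundle E X k π → ¬ HolConvex E := by
  have main : ∀ (E : CMfd) (k : ℕ)
      (π : E.X → (⟨ℂ × (ℂ × ℂ), Pool.Agent.Y261.VG.XX⟩ : CMfd).X),
      IsAffineBundle E ⟨ℂ × (ℂ × ℂ), Pool.Agent.Y261.VG.XX⟩ k π → ¬ HolConvex E := by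
    rintro E k π ⟨𝒜, h1, h2, h3⟩ hconv
    have hA : Pool.Agent.Y261.VG.AffAtlas 𝓘(ℂ, ℂ × (ℂ × ℂ)) 𝓘(ℂ, E.V) π 𝒜 :=
      ⟨h1, fun e he => (h2 e he).1, fun e he => (h2 e he).2, fun e he e' he' x hx hx' => by
        obtain ⟨T, hT⟩ := h3 e he e' he' x ⟨hx, hx'⟩
        exact ⟨T, hT⟩⟩
    exact Pool.Agent.Y261.VG.no_affine hA Pool.Agent.Y261.VG.ptX Pool.Agent.Y261.VG.isOpen_Om
      Pool.Agent.Y261.VG.mdiff_ptX Pool.Agent.Y261.VG.Dom_Om Pool.Agent.Y261.VG.pinf
      Pool.Agent.Y261.VG.nhds_pinf Pool.Agent.Y261.VG.compact_X hconv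
      (fun hr hR => Pool.Agent.Y261.VG.exists_proj hr hR)
  refine ⟨⟨ℂ × (ℂ × ℂ), Pool.Agent.Y261.VG.XX⟩, Pool.Agent.Y261.VG.instConnectedXX, ?_, ?_, main⟩
  · change Module.finrank ℂ (ℂ × (ℂ × ℂ)) = 3
    simp
  · rintro ⟨E, k, π, hb, hs⟩
    exact main E k π hb hs.1

end Pool.Agent.Results.MP_77a596_an.NotVeryGood
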